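import Pool.Agent.ASE.Stmts8

/-!
# Squad ASE, row FXL: the numbers of fixed characters are determined by `Lam`
-/

open scoped BigOperators

noncomputable section

namespace Pool.Agent.PP.SE.H35

open Pool.Agent.Helper51_AWC Pool.Agent.Helper79_WRA Pool.Agent.PP Pool.Agent.PP.KF
open Pool.Agent.PP.K9 Pool.Agent.PP.K9.H97 Pool.Agent.PP.H75 Pool.Agent.PP.T3 Pool.Agent.PP.SO
open Pool.Agent.PP.SD Pool.Agent.PP.SE

attribute [local instance] Ideal.Quotient.field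

theorem irr_conj35 {G : Type} [Group G] {χ : G → ℂ} (hχ : χ ∈ Irr G) (x y : G) :
    χ (y * x * y⁻¹) = χ x := by
  obtain ⟨n, ρ, -, rfl⟩ := hχ
  exact ρ.char_conj x y

section blk

variable {V₀ G : Type} [CommGroup V₀] [Group G] {ℓ : ℕ}
  {M : Ideal (integralClosure ℤ ℂ)} [M.IsMaximal] {E₀ : Subgroup (MulAut V₀)}
  {B : Bk (FF M) V₀ G} {χ : G → ℂ} {W : Subgroup V₀}

theorem ch_conj35 (hχ : χ ∈ Ch B W) {h : G} (hh : h ∈ B.C W) (y : G) :
    χ (h * y * h⁻¹) = χ y := by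
  by_cases hy : y ∈ B.C W
  · exact irr_conj35 hχ.2.1 (⟨y, hy⟩ : B.C W) ⟨h, hh⟩
  · have hy' : h * y * h⁻¹ ∉ B.C W := by
      intro h'
      apply hy
      have h2 := (B.C W).mul_mem ((B.C W).mul_mem ((B.C W).inv_mem hh) h') hh
      have e : h⁻¹ * (h * y * h⁻¹) * h = y := by group
      rwa [e] at h2
    rw [hχ.1 y hy, hχ.1 _ hy']

theorem tt_spec (hSb : Sb ℓ M E₀ B) {σ : MulAut V₀} (hσ : σ ∈ E₀) (v : V₀) :
    tt B σ * B.i v * (tt B σ)⁻¹ = B.i (σ v) := by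
  have h := hSb.sur σ hσ
  unfold tt
  rw [dif_pos h]
  exact h.choose_spec.2 v

theorem ac_eq (hSb : Sb ℓ M E₀ B) (hχ : χ ∈ Ch B W) {σ : MulAut V₀} (hσ : σ ∈ E₀) {t : G}
    (ht : ∀ w ∈ W, t * B.i w * t⁻¹ = B.i (σ w)) (x : G) : ac B σ χ x = χ (t⁻¹ * x * t) := by
  have hc : t⁻¹ * tt B σ ∈ B.C W := by
    unfold Bk.C
    rw [Subgroup.mem_centralizer_iff]
    rintro _ ⟨w, hw, rfl⟩
    have h1 := tt_spec hSb hσ w
    rw [← ht w hw] at h1
    have h2 : tt B σ * B.i w = t * B.i w * t⁻¹ * tt B σ := by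
      rw [← h1]
      group
    rw [mul_assoc, h2]
    group
  have h3 := ch_conj35 hχ ((B.C W).inv_mem hc) (t⁻¹ * x * t)
  unfold ac
  rw [← h3]
  congr 1
  group

theorem fix_sub (hSb : Sb ℓ M E₀ B) (hχ : χ ∈ Ch B W) :
    ∃ S : Subgroup (MulAut V₀), ∀ σ, σ ∈ S ↔ σ ∈ E₀ ∧ ac B σ χ = χ := by
  refine ⟨{
    carrier := {σ | σ ∈ E₀ ∧ ac B σ χ = χ}
    one_mem' := ?_
    mul_mem' := ?_
    inv_mem' := ?_ }, fun σ => Iff.rfl⟩
  · rintro a b ⟨ha, ea⟩ ⟨hb, eb⟩
    refine ⟨E₀.mul_mem ha hb, funext fun x => ?_⟩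
    rw [ac_eq hSb hχ (E₀.mul_mem ha hb) (t := tt B a * tt B b) (fun w _ => by
      rw [MulAut.mul_apply, ← tt_spec hSb ha (b w), ← tt_spec hSb hb w]
      group)]
    have h1 := congrFun eb ((tt B a)⁻¹ * x * tt B a)
    have h2 := congrFun ea x
    unfold ac at h1 h2
    rw [h2] at h1
    rw [← h1]
    congr 1
    group
  · refine ⟨E₀.one_mem, funext fun x => ?_⟩
    rw [ac_eq hSb hχ E₀.one_mem (t := 1) (fun w _ => by simp)]
    simp
  · rintro a ⟨ha, ea⟩
    refine ⟨E₀.inv_mem ha, funext fun x => ?_⟩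
    rw [ac_eq hSb hχ (E₀.inv_mem ha) (t := (tt B a)⁻¹) (fun w _ => by
      have h1 := tt_spec hSb ha (a⁻¹ w)
      rw [MulAut.apply_inv_self] at h1
      rw [← h1]
      group)]
    have h1 := congrFun ea (tt B a * x * (tt B a)⁻¹)
    unfold ac at h1
    rw [inv_inv, ← h1]
    congr 1
    group

theorem ac_St (hSb : Sb ℓ M E₀ B) (hχ : χ ∈ Ch B W) {σ : MulAut V₀} (hσ : σ ∈ St E₀ W) :
    ac B σ χ = χ := by
  funext x
  rw [ac_eq hSb hχ hσ.1 (t := 1) (fun w hw => by rw [hσ.2 w hw]; simp)]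
  simp

/-- the number of the characters fixed by `H` -/
def FN (B : Bk (FF M) V₀ G) (W : Subgroup V₀) (H : Subgroup (MulAut V₀)) : ℕ :=
  {χ | χ ∈ Ch B W ∧ ∀ σ ∈ H, ac B σ χ = χ}.ncard

theorem fn_pair (hSb : Sb ℓ M E₀ B) {ρ τ : MulAut V₀} (hρ : ρ ∈ E₀) (hτ : τ ∈ E₀) :
    {χ | χ ∈ Ch B W ∧ ac B ρ χ = χ ∧ ac B τ χ = χ}.ncard =
      FN B W (Subgroup.closure {ρ, τ} ⊔ St E₀ W) := by
  unfold FN
  congr 1
  ext χ
  constructor
  · rintro ⟨hχ, h1, h2⟩
    refine ⟨hχ, ?_⟩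
    obtain ⟨S, hS⟩ := fix_sub hSb hχ
    have h3 : Subgroup.closure {ρ, τ} ⊔ St E₀ W ≤ S := by
      refine sup_le ((Subgroup.closure_le _).2 ?_) ?_
      · intro x hx
        rcases hx with rfl | hx
        · exact (hS x).2 ⟨hρ, h1⟩
        · rw [Set.mem_singleton_iff] at hx
          rw [hx]
          exact (hS τ).2 ⟨hτ, h2⟩
      · intro x hx
        exact (hS x).2 ⟨hx.1, ac_St hSb hχ hx⟩
    exact fun σ hσ => ((hS σ).1 (h3 hσ)).2
  · rintro ⟨hχ, h⟩
    refine ⟨hχ, h ρ ?_, h τ ?_⟩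
    · exact Subgroup.mem_sup_left (Subgroup.subset_closure (Set.mem_insert _ _))
    · exact Subgroup.mem_sup_left (Subgroup.subset_closure (Set.mem_insert_of_mem _ rfl))

end blk

section grp

variable {V₀ : Type} [CommGroup V₀]

theorem mp_one (W : Subgroup V₀) : mp 1 W = W := Subgroup.map_id W

theorem mp_mul (σ τ : MulAut V₀) (W : Subgroup V₀) : mp (σ * τ) W = mp σ (mp τ W) := by
  unfold mp
  rw [Subgroup.map_map]
  rfl

/-- the stabiliser of `W` in `E₀` -/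
def NW (E₀ : Subgroup (MulAut V₀)) (W : Subgroup V₀) : Subgroup (MulAut V₀) where
  carrier := {σ | σ ∈ E₀ ∧ mp σ W = W}
  one_mem' := ⟨E₀.one_mem, mp_one W⟩
  mul_mem' := by
    rintro a b ⟨ha, ea⟩ ⟨hb, eb⟩
    exact ⟨E₀.mul_mem ha hb, by rw [mp_mul, eb, ea]⟩
  inv_mem' := by
    rintro a ⟨ha, ea⟩
    refine ⟨E₀.inv_mem ha, ?_⟩
    conv_lhs => rw [← ea]
    rw [← mp_mul, inv_mul_cancel, mp_one]

theorem St_le_NW (E₀ : Subgroup (MulAut V₀)) (W : Subgroup V₀) : St E₀ W ≤ NW E₀ W := by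
  rintro σ ⟨h1, h2⟩
  refine ⟨h1, ?_⟩
  ext x
  unfold mp
  rw [Subgroup.mem_map]
  constructor
  · rintro ⟨w, hw, rfl⟩
    have h3 : (σ : V₀ ≃* V₀).toMonoidHom w = w := h2 w hw
    rw [h3]
    exact hw
  · intro hx
    exact ⟨x, hx, h2 x hx⟩

end grp

open Classical in
/-- Row FXL. -/
theorem fxl (fxs : FxsStmt) : FxlStmt := by
  intro ℓ hℓ M _ hM h2 V₀ G G' _ _ _ _ _ _ E₀ hFq B B' hB hB' hLam W hW σ hσ hmp
  have key : ∀ n : ℕ, ∀ H : Subgroup (MulAut V₀), Nat.card H = n → ∀ ρ ∈ NW E₀ W,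
      ∀ τ ∈ NW E₀ W, H = Subgroup.closure {ρ, τ} ⊔ St E₀ W → FN B W H = FN B' W H := by
    intro n
    induction n using Nat.strong_induction_on with
    | _ n ih =>
      intro H hn ρ hρ τ hτ hH
      have hHN : H ≤ NW E₀ W := by
        rw [hH]
        refine sup_le ((Subgroup.closure_le _).2 ?_) (St_le_NW E₀ W)
        intro x hx
        rcases hx with rfl | hx
        · exact hρ
        · rw [Set.mem_singleton_iff] at hx
          rw [hx]
          exact hτ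
      have hHE : H ≤ E₀ := fun x hx => (hHN hx).1
      have hSt : St E₀ W ≤ H := by
        rw [hH]
        exact le_sup_right
      have hinv : ∀ x ∈ H, ∀ w ∈ W, x w ∈ W := by
        intro x hx w hw
        have h3 : x w ∈ mp x W := ⟨w, hw, rfl⟩
        rwa [(hHN hx).2] at h3
      have e1 := fxs ℓ M hM h2 V₀ G E₀ hFq B hB W hW H hHE hSt hinv
      have e2 := fxs ℓ M hM h2 V₀ G' E₀ hFq B' hB' W hW H hHE hSt hinv
      have e3 : ∑ᶠ v : V₀, Nat.card (Es H v) * Lam B' (Es H v) =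
          ∑ᶠ v : V₀, Nat.card (Es H v) * Lam B (Es H v) := by
        refine finsum_congr fun v => ?_
        rw [hLam (Es H v) fun x hx => hHE hx.1]
      rw [e3, ← e1] at e2
      let _ : Fintype (H × H) := Fintype.ofFinite _
      rw [finsum_eq_sum_of_fintype, finsum_eq_sum_of_fintype,
        Finset.sum_congr rfl fun w _ => fn_pair hB' (hHE w.1.2) (hHE w.2.2),
        Finset.sum_congr rfl fun w _ => fn_pair hB (hHE w.1.2) (hHE w.2.2)] at e2
      obtain ⟨D, hD⟩ : ∃ D : ℤ, D = (FN B W H : ℤ) - FN B' W H := ⟨_, rfl⟩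
      have e4 : ∀ w : H × H,
          (FN B W (Subgroup.closure {(w.1 : MulAut V₀), (w.2 : MulAut V₀)} ⊔ St E₀ W) : ℤ) -
          FN B' W (Subgroup.closure {(w.1 : MulAut V₀), (w.2 : MulAut V₀)} ⊔ St E₀ W) =
          if Subgroup.closure {(w.1 : MulAut V₀), (w.2 : MulAut V₀)} ⊔ St E₀ W = H then D
            else 0 := by
        intro w
        by_cases hw : Subgroup.closure {(w.1 : MulAut V₀), (w.2 : MulAut V₀)} ⊔ St E₀ W = H
        · rw [if_pos hw, hw, hD]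
        · rw [if_neg hw]
          have hle : Subgroup.closure {(w.1 : MulAut V₀), (w.2 : MulAut V₀)} ⊔ St E₀ W ≤ H := by
            refine sup_le ((Subgroup.closure_le _).2 ?_) hSt
            intro x hx
            rcases hx with rfl | hx
            · exact w.1.2
            · rw [Set.mem_singleton_iff] at hx
              rw [hx]
              exact w.2.2
          have hlt : Nat.card (Subgroup.closure {(w.1 : MulAut V₀), (w.2 : MulAut V₀)} ⊔ St E₀ W :
              Subgroup (MulAut V₀)) < n := by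
            rw [← hn]
            by_contra hcon
            exact hw (Subgroup.eq_of_le_of_card_ge hle (not_lt.1 hcon))
          rw [ih _ hlt _ rfl w.1 (hHN w.1.2) w.2 (hHN w.2.2) rfl, sub_self]
      have e5 : ∑ w : H × H,
          (if Subgroup.closure {(w.1 : MulAut V₀), (w.2 : MulAut V₀)} ⊔ St E₀ W = H then D
            else 0) = 0 := by
        rw [← Finset.sum_congr rfl fun w _ => e4 w, Finset.sum_sub_distrib, sub_eq_zero]
        exact_mod_cast e2.symm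
      rw [← Finset.sum_filter, Finset.sum_const, nsmul_eq_mul] at e5
      rcases mul_eq_zero.1 e5 with h3 | h3
      · exfalso
        rw [Nat.cast_eq_zero, Finset.card_eq_zero] at h3
        have hρH : ρ ∈ H := by
          rw [hH]
          exact Subgroup.mem_sup_left (Subgroup.subset_closure (Set.mem_insert _ _))
        have hτH : τ ∈ H := by
          rw [hH]
          exact Subgroup.mem_sup_left
            (Subgroup.subset_closure (Set.mem_insert_of_mem _ rfl))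
        have h4 : ((⟨ρ, hρH⟩, ⟨τ, hτH⟩) : H × H) ∈ Finset.univ.filter (fun w : H × H =>
            Subgroup.closure {(w.1 : MulAut V₀), (w.2 : MulAut V₀)} ⊔ St E₀ W = H) := by
          rw [Finset.mem_filter]
          exact ⟨Finset.mem_univ _, hH.symm⟩
        rw [h3] at h4
        exact absurd h4 (Finset.notMem_empty _)
      · rw [h3] at hD
        exact_mod_cast (sub_eq_zero.1 hD.symm)
  have hfix : ∀ {G₁ : Type} [Group G₁] (B₁ : Bk (FF M) V₀ G₁), Sb ℓ M E₀ B₁ →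
      FixC B₁ W σ = FN B₁ W (Subgroup.closure {σ, σ} ⊔ St E₀ W) := by
    intro G₁ _ B₁ hB₁
    rw [← fn_pair hB₁ hσ hσ]
    unfold FixC
    congr 1
    ext χ
    exact ⟨fun h => ⟨h.1, h.2, h.2⟩, fun h => ⟨h.1, h.2.1⟩⟩
  rw [hfix B hB, hfix B' hB']
  exact (key _ _ rfl σ ⟨hσ, hmp⟩ σ ⟨hσ, hmp⟩ rfl).symm

end Pool.Agent.PP.SE.H35
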